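import Mathlib

/-!
# Restriction of coefficients to subsets of a group
-/

set_option autoImplicit false

set_option linter.unusedSectionVars false

namespace Pool.Agent.Lib.MP_551055_al
end Pool.Agent.Lib.MP_551055_al

namespace Pool.Agent.Lib.MP_551055_al.Red

open Pool.Agent.Lib.MP_551055_al

open MonoidAlgebra Classical

universe u v

variable {G : Type u} [Group G]

section Res

/-- Restriction of the coefficients to the set `T`. -/
noncomputable def res (T : Set G) : MonoidAlgebra ℤ G →+ MonoidAlgebra ℤ G where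
  toFun r := MonoidAlgebra.ofCoeff (r.coeff.filter (· ∈ T))
  map_zero' := by
    ext g
    simp [Finsupp.filter_apply]
  map_add' r s := by
    ext g
    simp only [coeff_add, Finsupp.add_apply, Finsupp.filter_apply]
    split_ifs <;> simp

theorem res_coeff (T : Set G) (r : MonoidAlgebra ℤ G) (g : G) :
    (res T r).coeff g = if g ∈ T then r.coeff g else 0 := by
  unfold res
  simp [Finsupp.filter_apply]

theorem res_single_mul (T T' : Set G) (x : G) (c : ℤ) (r : MonoidAlgebra ℤ G)
    (h : ∀ g, g ∈ T' ↔ x * g ∈ T) : res T (single x c * r) = single x c * res T' r := by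
  ext g
  rw [res_coeff, coeff_single_mul_apply, coeff_single_mul_apply, res_coeff]
  by_cases hg : g ∈ T
  · rw [if_pos hg, if_pos]
    rw [h]
    simpa using hg
  · rw [if_neg hg, if_neg, mul_zero]
    rw [h]
    simpa using hg

theorem exists_of_mul_coeff_ne (a b : MonoidAlgebra ℤ G) (g : G) (h : (a * b).coeff g ≠ 0) :
    ∃ x y, a.coeff x ≠ 0 ∧ b.coeff y ≠ 0 ∧ x * y = g := by
  rw [coeff_mul, Finsupp.sum] at h
  obtain ⟨x, hx, h1⟩ := Finset.exists_ne_zero_of_sum_ne_zero h
  rw [Finsupp.sum] at h1
  obtain ⟨y, hy, h2⟩ := Finset.exists_ne_zero_of_sum_ne_zero h1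
  refine ⟨x, y, Finsupp.mem_support_iff.1 hx, Finsupp.mem_support_iff.1 hy, ?_⟩
  by_contra hne
  rw [if_neg hne] at h2
  exact h2 rfl

end Res

section Vec

variable {ι κ : Type}

/-- All coefficients of `y` outside `T` are zero. -/
def Sup (T : Set G) (y : ι → MonoidAlgebra ℤ G) : Prop :=
  ∀ j g, (y j).coeff g ≠ 0 → g ∈ T

/-- Restriction of vectors. -/
noncomputable def resv (T : Set G) : (ι → MonoidAlgebra ℤ G) →+ (ι → MonoidAlgebra ℤ G) where
  toFun y := fun j => res T (y j)
  map_zero' := by
    funext j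
    exact map_zero _
  map_add' y z := by
    funext j
    exact map_add _ _ _

theorem resv_apply (T : Set G) (y : ι → MonoidAlgebra ℤ G) (j : ι) :
    resv T y j = res T (y j) := rfl

theorem sup_resv (T : Set G) (y : ι → MonoidAlgebra ℤ G) : Sup T (resv T y) := by
  intro j g hg
  rw [resv_apply, res_coeff] at hg
  by_contra h
  exact hg (if_neg h)

theorem resv_of_sup {T : Set G} {y : ι → MonoidAlgebra ℤ G} (h : Sup T y) : resv T y = y := by
  funext j
  ext g
  rw [resv_apply, res_coeff]
  by_cases hg : g ∈ T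
  · rw [if_pos hg]
  · rw [if_neg hg]
    by_contra hne
    exact hg (h j g (Ne.symm hne))

theorem Sup.zero (T : Set G) : Sup T (0 : ι → MonoidAlgebra ℤ G) := by
  intro j g hg
  exact absurd rfl hg

theorem Sup.add {T : Set G} {y z : ι → MonoidAlgebra ℤ G} (hy : Sup T y) (hz : Sup T z) :
    Sup T (y + z) := by
  rw [← resv_of_sup hy, ← resv_of_sup hz, ← map_add]
  exact sup_resv _ _

end Vec

section Proj

end Proj

end Pool.Agent.Lib.MP_551055_al.Red
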