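import Mathlib
import Pool.Agent.Lib.MP_551055_al.Trim.OneRelation
import Pool.Agent.Lib.MP_551055_al.Trim.VNDefs

/-!
# Reduction to one group generated by two elements: definitions and statements of the modules
-/

set_option autoImplicit false

namespace Pool.Agent.Lib.MP_551055_al
end Pool.Agent.Lib.MP_551055_al

namespace Pool.Agent.Lib.MP_551055_al.Red

open Pool.Agent.Lib.MP_551055_al

universe u v

/-- The image of the matrix `e` (rows act from the left). -/
abbrev Img {R : Type u} [Ring R] {n : ℕ} (e : Matrix (Fin n) (Fin n) R) :
    Submodule R (Fin n → R) := LinearMap.range (Matrix.toLinearMapRight' e)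

/-- Module 0. Projective modules and idempotent matrices. -/
def StIdem : Prop :=
  ∀ (G : Type u) [Group G], (∀ (n : ℕ) (e : Matrix (Fin n) (Fin n) (MonoidAlgebra ℤ G)),
    e * e = e → StFree (MonoidAlgebra ℤ G) (Img e)) → VN.ProjStFree G

end Pool.Agent.Lib.MP_551055_al.Red
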