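import Mathlib
import Pool.Agent.Lib.MP_551055_al.Trim.OneRelation
import Pool.Agent.Lib.MP_551055_al.Trim.Red.Defs

/-!
# Projective modules are images of idempotent matrices
-/

set_option autoImplicit false

namespace Pool.Agent.Lib.MP_551055_al
end Pool.Agent.Lib.MP_551055_al

namespace Pool.Agent.Lib.MP_551055_al.Red

open Pool.Agent.Lib.MP_551055_al

universe u

theorem stIdem : StIdem.{u} := by
  classical
  intro G _ hG Q _ _ hfin hproj
  obtain ⟨n, x, hx⟩ := Module.Finite.exists_fin (R := MonoidAlgebra ℤ G) (M := Q)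
  let R := MonoidAlgebra ℤ G
  let π : (Fin n → R) →ₗ[R] Q := Fintype.linearCombination R x
  have hπ : Function.Surjective π := by
    rw [← LinearMap.range_eq_top, Fintype.range_linearCombination, hx]
  obtain ⟨σ, hσ⟩ := Module.projective_lifting_property π LinearMap.id hπ
  have hσ' : ∀ p, π (σ p) = p := fun p => DFunLike.congr_fun hσ p
  let q : (Fin n → R) →ₗ[R] (Fin n → R) := σ ∘ₗ π
  have hqq : q ∘ₗ q = q := by
    ext1 i
    refine LinearMap.ext (fun r => ?_)
    change σ (π (σ (π _))) = σ (π _)
    rw [hσ']
  obtain ⟨e, he⟩ := (Matrix.toLinearMapRight' (m := Fin n) (n := Fin n) (R := R)).surjective q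
  have hee : e * e = e := by
    apply (Matrix.toLinearMapRight' (m := Fin n) (n := Fin n) (R := R)).injective
    rw [Matrix.toLinearMapRight'_mul, he, hqq]
  have hσinj : Function.Injective σ := fun a b hab => by rw [← hσ' a, hab, hσ']
  have hrange : LinearMap.range σ = Img e := by
    change _ = LinearMap.range (Matrix.toLinearMapRight' e)
    rw [he]
    exact (LinearMap.range_comp_of_range_eq_top σ (LinearMap.range_eq_top.2 hπ)).symm
  have h1 : Q ≃ₗ[R] Img e := (LinearEquiv.ofInjective σ hσinj).trans (LinearEquiv.ofEq _ _ hrange)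
  exact StFree.congr h1.symm (hG n e hee)

end Pool.Agent.Lib.MP_551055_al.Red
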